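import Mathlib

/-! The two domatic game numbers of a graph differ by at most one. -/

namespace Pool.Agent.Results.MP_d2c770_co.AtMostOne

open Function

variable {V : Type} [DecidableEq V]

/-- Alice can force a win from the position `s` (`none` = uncoloured); the Boolean is `true`
when Alice is to move and `false` when Bob is. -/
inductive Win (G : SimpleGraph V) (k : ℕ) : Bool → (V → Option (Fin k)) → Prop
  | done (t : Bool) (s : V → Option (Fin k)) : (∀ v, s v ≠ none) →
      (∀ c v, s v = some c ∨ ∃ w, G.Adj v w ∧ s w = some c) → Win G k t s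
  | alice (s : V → Option (Fin k)) (v : V) (c : Fin k) : s v = none →
      Win G k false (update s v (some c)) → Win G k true s
  | bob (s : V → Option (Fin k)) : (∃ v, s v = none) →
      (∀ v c, s v = none → Win G k true (update s v (some c))) → Win G k false s

/-- The domatic game number; `t = true` when Alice starts, `t = false` when Bob starts. -/
noncomputable def gam (G : SimpleGraph V) (t : Bool) : ℕ :=
  sSup {k | 1 ≤ k ∧ Win G k t fun _ => none}

lemma bound [Fintype V] [Nonempty V] {G : SimpleGraph V} {k : ℕ} (hk : 1 ≤ k) {t : Bool}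
    {s : V → Option (Fin k)} (h : Win G k t s) : k ≤ Fintype.card V := by
  induction h with
  | done t s _ h =>
    have : ∀ c, ∃ v, s v = some c := fun c => by
      rcases h c (Classical.arbitrary V) with h | ⟨w, -, h⟩ <;> exact ⟨_, h⟩
    choose f hf using this
    simpa using Fintype.card_le_of_injective f fun a b e =>
      Option.some_injective _ (by rw [← hf, e, hf])
  | alice s v c _ _ ih => exact ih
  | bob s h _ ih => obtain ⟨v, hv⟩ := h; exact ih v ⟨0, hk⟩ hv

lemma ghost {G : SimpleGraph V} {k : ℕ} (c₀ : Fin (k + 2)) {t : Bool}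
    {s : V → Option (Fin (k + 2))} (h : Win G (k + 2) t s) :
    ∀ (g : V) (r : V → Option (Fin (k + 1))), (∀ v c, s v = some (c₀.succAbove c) → r v = some c) →
      (∀ v, s v = none → r v = none) → (∀ v, r v = none → s v = none ∨ v = g) →
      Win G (k + 1) t r := by
  induction h with
  | done t s h1 h2 =>
    intro g r a1 a2 a3
    have fin : ∀ t r, (∀ v c, s v = some (c₀.succAbove c) → r v = some c) → (∀ v, r v ≠ none) →
        Win G (k + 1) t r := fun t r a b => .done t r b fun c v => by
      rcases h2 (c₀.succAbove c) v with h | ⟨w, h, h'⟩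
      · exact Or.inl (a _ _ h)
      · exact Or.inr ⟨w, h, a _ _ h'⟩
    by_cases hg : r g = none
    · cases t
      · exact .bob r ⟨g, hg⟩ fun v c hv => fin _ _ (by grind) (by grind)
      · exact .alice r g 0 hg (fin _ _ (by grind) (by grind))
    · exact fin _ _ a1 (by grind)
  | alice s v c h1 _ ih =>
    intro g r a1 a2 a3
    obtain ⟨d, hd⟩ : ∃ d, ∀ d', c = c₀.succAbove d' → d = d' := by
      by_cases h : ∃ d, c = c₀.succAbove d
      · obtain ⟨d, rfl⟩ := h
        exact ⟨d, fun d' e => Fin.succAbove_right_injective e⟩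
      · exact ⟨0, fun d' e => absurd ⟨d', e⟩ h⟩
    exact .alice r v d (a2 v h1) (ih g _ (by grind) (by grind) (by grind))
  | bob s h1 _ ih =>
    intro g r a1 a2 a3
    obtain ⟨x, hx⟩ := h1
    have n := c₀.succAbove_ne
    refine .bob r ⟨x, a2 x hx⟩ fun v c hv => ?_
    by_cases hs : s v = none
    · exact ih v c₀ hs g _ (by grind) (by grind) (by grind)
    · exact ih x c₀ hx x _ (by grind) (by grind) (by grind)

lemma swap [Nonempty V] {G : SimpleGraph V} {k : ℕ} {t : Bool}
    (h : Win G (k + 2) t fun _ => none) : Win G (k + 1) (!t) fun _ => none := by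
  generalize hs : (fun _ => none : V → Option (Fin (k + 2))) = s at h
  cases h with
  | done t s h _ => exact absurd (by rw [← hs]) (h (Classical.arbitrary V))
  | alice s v c _ h =>
    have n := c.succAbove_ne
    exact ghost c h v _ (by grind) (by grind) (by grind)
  | bob s h1 h =>
    obtain ⟨v, hv⟩ := h1
    have n := (0 : Fin (k + 2)).succAbove_ne
    exact ghost 0 (h v 0 hv) v _ (by grind) (by grind) (by grind)

lemma step [Fintype V] [Nonempty V] (G : SimpleGraph V) (t : Bool) : gam G t ≤ gam G (!t) + 1 := by
  refine csSup_le' ?_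
  rintro (_ | _ | k) ⟨h1, h2⟩
  · omega
  · omega
  · exact Nat.succ_le_succ (le_csSup ⟨_, fun j h => bound h.1 h.2⟩ ⟨by omega, swap h2⟩)

theorem result (V : Type) [DecidableEq V] [Fintype V] [Nonempty V] (G : SimpleGraph V) :
    |(gam G true : ℤ) - gam G false| ≤ 1 := by
  have h1 := step G true
  have h2 := step G false
  simp only [Bool.not_true, Bool.not_false] at h1 h2
  rw [abs_le]
  omega

end Pool.Agent.Results.MP_d2c770_co.AtMostOne
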